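import Pool.Agent.Helper76.CQ.Defs

/-! Project CQ (MP_9410e4_ag), piece CQ-8b: the explicit differential at the base point. -/

set_option autoImplicit false
set_option linter.unusedSimpArgs false

namespace Pool.Agent.Helper96.CQ

open Pool.Agent.Helper76.CY Pool.Agent.Helper76.CQ

section

variable {K : Type*} [Field K]

lemma d033 : D0 K 0 3 3 = 2 := by
  rw [D0, show D0Z 0 3 3 = 2 from by decide +kernel]; simp
lemma d133 : D0 K 1 3 3 = 0 := by
  rw [D0, show D0Z 1 3 3 = 0 from by decide +kernel]; simp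
lemma d134 : D0 K 1 3 4 = 0 := by
  rw [D0, show D0Z 1 3 4 = 0 from by decide +kernel]; simp
lemma d135 : D0 K 1 3 5 = (-1) := by
  rw [D0, show D0Z 1 3 5 = -1 from by decide +kernel]; simp
lemma d136 : D0 K 1 3 6 = 1 := by
  rw [D0, show D0Z 1 3 6 = 1 from by decide +kernel]; simp
lemma d137 : D0 K 1 3 7 = 1 := by
  rw [D0, show D0Z 1 3 7 = 1 from by decide +kernel]; simp
lemma d138 : D0 K 1 3 8 = 2 := by
  rw [D0, show D0Z 1 3 8 = 2 from by decide +kernel]; simp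
lemma d139 : D0 K 1 3 9 = (-1) := by
  rw [D0, show D0Z 1 3 9 = -1 from by decide +kernel]; simp
lemma d233 : D0 K 2 3 3 = 0 := by
  rw [D0, show D0Z 2 3 3 = 0 from by decide +kernel]; simp
lemma d234 : D0 K 2 3 4 = 0 := by
  rw [D0, show D0Z 2 3 4 = 0 from by decide +kernel]; simp
lemma d235 : D0 K 2 3 5 = 0 := by
  rw [D0, show D0Z 2 3 5 = 0 from by decide +kernel]; simp
lemma d236 : D0 K 2 3 6 = 0 := by
  rw [D0, show D0Z 2 3 6 = 0 from by decide +kernel]; simp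
lemma d237 : D0 K 2 3 7 = 1 := by
  rw [D0, show D0Z 2 3 7 = 1 from by decide +kernel]; simp
lemma d238 : D0 K 2 3 8 = 0 := by
  rw [D0, show D0Z 2 3 8 = 0 from by decide +kernel]; simp
lemma d239 : D0 K 2 3 9 = 0 := by
  rw [D0, show D0Z 2 3 9 = 0 from by decide +kernel]; simp
lemma d303 : D0 K 3 0 3 = 2 := by
  rw [D0, show D0Z 3 0 3 = 2 from by decide +kernel]; simp
lemma d304 : D0 K 3 0 4 = 0 := by
  rw [D0, show D0Z 3 0 4 = 0 from by decide +kernel]; simp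
lemma d305 : D0 K 3 0 5 = 2 := by
  rw [D0, show D0Z 3 0 5 = 2 from by decide +kernel]; simp
lemma d306 : D0 K 3 0 6 = 1 := by
  rw [D0, show D0Z 3 0 6 = 1 from by decide +kernel]; simp
lemma d307 : D0 K 3 0 7 = 1 := by
  rw [D0, show D0Z 3 0 7 = 1 from by decide +kernel]; simp
lemma d308 : D0 K 3 0 8 = 1 := by
  rw [D0, show D0Z 3 0 8 = 1 from by decide +kernel]; simp
lemma d309 : D0 K 3 0 9 = 0 := by
  rw [D0, show D0Z 3 0 9 = 0 from by decide +kernel]; simp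
lemma d313 : D0 K 3 1 3 = 0 := by
  rw [D0, show D0Z 3 1 3 = 0 from by decide +kernel]; simp
lemma d314 : D0 K 3 1 4 = 0 := by
  rw [D0, show D0Z 3 1 4 = 0 from by decide +kernel]; simp
lemma d315 : D0 K 3 1 5 = (-1) := by
  rw [D0, show D0Z 3 1 5 = -1 from by decide +kernel]; simp
lemma d316 : D0 K 3 1 6 = 1 := by
  rw [D0, show D0Z 3 1 6 = 1 from by decide +kernel]; simp
lemma d317 : D0 K 3 1 7 = 1 := by
  rw [D0, show D0Z 3 1 7 = 1 from by decide +kernel]; simp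
lemma d318 : D0 K 3 1 8 = 2 := by
  rw [D0, show D0Z 3 1 8 = 2 from by decide +kernel]; simp
lemma d319 : D0 K 3 1 9 = (-1) := by
  rw [D0, show D0Z 3 1 9 = -1 from by decide +kernel]; simp
lemma d323 : D0 K 3 2 3 = 0 := by
  rw [D0, show D0Z 3 2 3 = 0 from by decide +kernel]; simp
lemma d324 : D0 K 3 2 4 = 0 := by
  rw [D0, show D0Z 3 2 4 = 0 from by decide +kernel]; simp
lemma d325 : D0 K 3 2 5 = 0 := by
  rw [D0, show D0Z 3 2 5 = 0 from by decide +kernel]; simp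
lemma d326 : D0 K 3 2 6 = 0 := by
  rw [D0, show D0Z 3 2 6 = 0 from by decide +kernel]; simp
lemma d327 : D0 K 3 2 7 = 1 := by
  rw [D0, show D0Z 3 2 7 = 1 from by decide +kernel]; simp
lemma d328 : D0 K 3 2 8 = 0 := by
  rw [D0, show D0Z 3 2 8 = 0 from by decide +kernel]; simp
lemma d329 : D0 K 3 2 9 = 0 := by
  rw [D0, show D0Z 3 2 9 = 0 from by decide +kernel]; simp
lemma d330 : D0 K 3 3 0 = 2 := by
  rw [D0, show D0Z 3 3 0 = 2 from by decide +kernel]; simp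
lemma d331 : D0 K 3 3 1 = 0 := by
  rw [D0, show D0Z 3 3 1 = 0 from by decide +kernel]; simp
lemma d332 : D0 K 3 3 2 = 0 := by
  rw [D0, show D0Z 3 3 2 = 0 from by decide +kernel]; simp
lemma d333 : D0 K 3 3 3 = 0 := by
  rw [D0, show D0Z 3 3 3 = 0 from by decide +kernel]; simp
lemma d334 : D0 K 3 3 4 = 0 := by
  rw [D0, show D0Z 3 3 4 = 0 from by decide +kernel]; simp
lemma d335 : D0 K 3 3 5 = 0 := by
  rw [D0, show D0Z 3 3 5 = 0 from by decide +kernel]; simp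
lemma d336 : D0 K 3 3 6 = 0 := by
  rw [D0, show D0Z 3 3 6 = 0 from by decide +kernel]; simp
lemma d337 : D0 K 3 3 7 = (-2) := by
  rw [D0, show D0Z 3 3 7 = -2 from by decide +kernel]; simp
lemma d338 : D0 K 3 3 8 = 0 := by
  rw [D0, show D0Z 3 3 8 = 0 from by decide +kernel]; simp
lemma d339 : D0 K 3 3 9 = 0 := by
  rw [D0, show D0Z 3 3 9 = 0 from by decide +kernel]; simp
lemma d340 : D0 K 3 4 0 = 0 := by
  rw [D0, show D0Z 3 4 0 = 0 from by decide +kernel]; simp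
lemma d341 : D0 K 3 4 1 = 0 := by
  rw [D0, show D0Z 3 4 1 = 0 from by decide +kernel]; simp
lemma d342 : D0 K 3 4 2 = 0 := by
  rw [D0, show D0Z 3 4 2 = 0 from by decide +kernel]; simp
lemma d350 : D0 K 3 5 0 = 2 := by
  rw [D0, show D0Z 3 5 0 = 2 from by decide +kernel]; simp
lemma d351 : D0 K 3 5 1 = (-1) := by
  rw [D0, show D0Z 3 5 1 = -1 from by decide +kernel]; simp
lemma d352 : D0 K 3 5 2 = 0 := by
  rw [D0, show D0Z 3 5 2 = 0 from by decide +kernel]; simp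
lemma d360 : D0 K 3 6 0 = 1 := by
  rw [D0, show D0Z 3 6 0 = 1 from by decide +kernel]; simp
lemma d361 : D0 K 3 6 1 = 1 := by
  rw [D0, show D0Z 3 6 1 = 1 from by decide +kernel]; simp
lemma d362 : D0 K 3 6 2 = 0 := by
  rw [D0, show D0Z 3 6 2 = 0 from by decide +kernel]; simp
lemma d370 : D0 K 3 7 0 = 1 := by
  rw [D0, show D0Z 3 7 0 = 1 from by decide +kernel]; simp
lemma d371 : D0 K 3 7 1 = 1 := by
  rw [D0, show D0Z 3 7 1 = 1 from by decide +kernel]; simp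
lemma d372 : D0 K 3 7 2 = 1 := by
  rw [D0, show D0Z 3 7 2 = 1 from by decide +kernel]; simp
lemma d380 : D0 K 3 8 0 = 1 := by
  rw [D0, show D0Z 3 8 0 = 1 from by decide +kernel]; simp
lemma d381 : D0 K 3 8 1 = 2 := by
  rw [D0, show D0Z 3 8 1 = 2 from by decide +kernel]; simp
lemma d382 : D0 K 3 8 2 = 0 := by
  rw [D0, show D0Z 3 8 2 = 0 from by decide +kernel]; simp
lemma d390 : D0 K 3 9 0 = 0 := by
  rw [D0, show D0Z 3 9 0 = 0 from by decide +kernel]; simp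
lemma d391 : D0 K 3 9 1 = (-1) := by
  rw [D0, show D0Z 3 9 1 = -1 from by decide +kernel]; simp
lemma d392 : D0 K 3 9 2 = 0 := by
  rw [D0, show D0Z 3 9 2 = 0 from by decide +kernel]; simp
lemma d400 : D0 K 4 0 0 = (-2) := by
  rw [D0, show D0Z 4 0 0 = -2 from by decide +kernel]; simp
lemma d401 : D0 K 4 0 1 = 0 := by
  rw [D0, show D0Z 4 0 1 = 0 from by decide +kernel]; simp
lemma d402 : D0 K 4 0 2 = (-1) := by
  rw [D0, show D0Z 4 0 2 = -1 from by decide +kernel]; simp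
lemma d410 : D0 K 4 1 0 = 0 := by
  rw [D0, show D0Z 4 1 0 = 0 from by decide +kernel]; simp
lemma d411 : D0 K 4 1 1 = 0 := by
  rw [D0, show D0Z 4 1 1 = 0 from by decide +kernel]; simp
lemma d412 : D0 K 4 1 2 = 0 := by
  rw [D0, show D0Z 4 1 2 = 0 from by decide +kernel]; simp
lemma d420 : D0 K 4 2 0 = (-1) := by
  rw [D0, show D0Z 4 2 0 = -1 from by decide +kernel]; simp
lemma d421 : D0 K 4 2 1 = 0 := by
  rw [D0, show D0Z 4 2 1 = 0 from by decide +kernel]; simp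
lemma d422 : D0 K 4 2 2 = 0 := by
  rw [D0, show D0Z 4 2 2 = 0 from by decide +kernel]; simp
lemma d433 : D0 K 4 3 3 = 0 := by
  rw [D0, show D0Z 4 3 3 = 0 from by decide +kernel]; simp
lemma d500 : D0 K 5 0 0 = 0 := by
  rw [D0, show D0Z 5 0 0 = 0 from by decide +kernel]; simp
lemma d501 : D0 K 5 0 1 = 1 := by
  rw [D0, show D0Z 5 0 1 = 1 from by decide +kernel]; simp
lemma d502 : D0 K 5 0 2 = 1 := by
  rw [D0, show D0Z 5 0 2 = 1 from by decide +kernel]; simp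
lemma d510 : D0 K 5 1 0 = 1 := by
  rw [D0, show D0Z 5 1 0 = 1 from by decide +kernel]; simp
lemma d511 : D0 K 5 1 1 = (-2) := by
  rw [D0, show D0Z 5 1 1 = -2 from by decide +kernel]; simp
lemma d512 : D0 K 5 1 2 = 0 := by
  rw [D0, show D0Z 5 1 2 = 0 from by decide +kernel]; simp
lemma d520 : D0 K 5 2 0 = 1 := by
  rw [D0, show D0Z 5 2 0 = 1 from by decide +kernel]; simp
lemma d521 : D0 K 5 2 1 = 0 := by
  rw [D0, show D0Z 5 2 1 = 0 from by decide +kernel]; simp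
lemma d522 : D0 K 5 2 2 = 0 := by
  rw [D0, show D0Z 5 2 2 = 0 from by decide +kernel]; simp
lemma d533 : D0 K 5 3 3 = 0 := by
  rw [D0, show D0Z 5 3 3 = 0 from by decide +kernel]; simp
lemma d600 : D0 K 6 0 0 = 0 := by
  rw [D0, show D0Z 6 0 0 = 0 from by decide +kernel]; simp
lemma d601 : D0 K 6 0 1 = 0 := by
  rw [D0, show D0Z 6 0 1 = 0 from by decide +kernel]; simp
lemma d602 : D0 K 6 0 2 = 1 := by
  rw [D0, show D0Z 6 0 2 = 1 from by decide +kernel]; simp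
lemma d610 : D0 K 6 1 0 = 0 := by
  rw [D0, show D0Z 6 1 0 = 0 from by decide +kernel]; simp
lemma d611 : D0 K 6 1 1 = 0 := by
  rw [D0, show D0Z 6 1 1 = 0 from by decide +kernel]; simp
lemma d612 : D0 K 6 1 2 = 1 := by
  rw [D0, show D0Z 6 1 2 = 1 from by decide +kernel]; simp
lemma d620 : D0 K 6 2 0 = 1 := by
  rw [D0, show D0Z 6 2 0 = 1 from by decide +kernel]; simp
lemma d621 : D0 K 6 2 1 = 1 := by
  rw [D0, show D0Z 6 2 1 = 1 from by decide +kernel]; simp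
lemma d622 : D0 K 6 2 2 = (-2) := by
  rw [D0, show D0Z 6 2 2 = -2 from by decide +kernel]; simp
lemma d633 : D0 K 6 3 3 = 0 := by
  rw [D0, show D0Z 6 3 3 = 0 from by decide +kernel]; simp
lemma d700 : D0 K 7 0 0 = 2 := by
  rw [D0, show D0Z 7 0 0 = 2 from by decide +kernel]; simp
lemma d701 : D0 K 7 0 1 = 0 := by
  rw [D0, show D0Z 7 0 1 = 0 from by decide +kernel]; simp
lemma d702 : D0 K 7 0 2 = 2 := by
  rw [D0, show D0Z 7 0 2 = 2 from by decide +kernel]; simp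
lemma d710 : D0 K 7 1 0 = 0 := by
  rw [D0, show D0Z 7 1 0 = 0 from by decide +kernel]; simp
lemma d711 : D0 K 7 1 1 = 0 := by
  rw [D0, show D0Z 7 1 1 = 0 from by decide +kernel]; simp
lemma d712 : D0 K 7 1 2 = 0 := by
  rw [D0, show D0Z 7 1 2 = 0 from by decide +kernel]; simp
lemma d720 : D0 K 7 2 0 = 2 := by
  rw [D0, show D0Z 7 2 0 = 2 from by decide +kernel]; simp
lemma d721 : D0 K 7 2 1 = 0 := by
  rw [D0, show D0Z 7 2 1 = 0 from by decide +kernel]; simp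
lemma d722 : D0 K 7 2 2 = 0 := by
  rw [D0, show D0Z 7 2 2 = 0 from by decide +kernel]; simp
lemma d733 : D0 K 7 3 3 = (-2) := by
  rw [D0, show D0Z 7 3 3 = -2 from by decide +kernel]; simp
lemma d800 : D0 K 8 0 0 = 0 := by
  rw [D0, show D0Z 8 0 0 = 0 from by decide +kernel]; simp
lemma d801 : D0 K 8 0 1 = 0 := by
  rw [D0, show D0Z 8 0 1 = 0 from by decide +kernel]; simp
lemma d802 : D0 K 8 0 2 = (-1) := by
  rw [D0, show D0Z 8 0 2 = -1 from by decide +kernel]; simp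
lemma d810 : D0 K 8 1 0 = 0 := by
  rw [D0, show D0Z 8 1 0 = 0 from by decide +kernel]; simp
lemma d811 : D0 K 8 1 1 = 2 := by
  rw [D0, show D0Z 8 1 1 = 2 from by decide +kernel]; simp
lemma d812 : D0 K 8 1 2 = 0 := by
  rw [D0, show D0Z 8 1 2 = 0 from by decide +kernel]; simp
lemma d820 : D0 K 8 2 0 = (-1) := by
  rw [D0, show D0Z 8 2 0 = -1 from by decide +kernel]; simp
lemma d821 : D0 K 8 2 1 = 0 := by
  rw [D0, show D0Z 8 2 1 = 0 from by decide +kernel]; simp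
lemma d822 : D0 K 8 2 2 = 0 := by
  rw [D0, show D0Z 8 2 2 = 0 from by decide +kernel]; simp
lemma d833 : D0 K 8 3 3 = 0 := by
  rw [D0, show D0Z 8 3 3 = 0 from by decide +kernel]; simp
lemma d900 : D0 K 9 0 0 = 0 := by
  rw [D0, show D0Z 9 0 0 = 0 from by decide +kernel]; simp
lemma d901 : D0 K 9 0 1 = 0 := by
  rw [D0, show D0Z 9 0 1 = 0 from by decide +kernel]; simp
lemma d902 : D0 K 9 0 2 = 0 := by
  rw [D0, show D0Z 9 0 2 = 0 from by decide +kernel]; simp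
lemma d910 : D0 K 9 1 0 = 0 := by
  rw [D0, show D0Z 9 1 0 = 0 from by decide +kernel]; simp
lemma d911 : D0 K 9 1 1 = 0 := by
  rw [D0, show D0Z 9 1 1 = 0 from by decide +kernel]; simp
lemma d912 : D0 K 9 1 2 = 0 := by
  rw [D0, show D0Z 9 1 2 = 0 from by decide +kernel]; simp
lemma d920 : D0 K 9 2 0 = 0 := by
  rw [D0, show D0Z 9 2 0 = 0 from by decide +kernel]; simp
lemma d921 : D0 K 9 2 1 = 0 := by
  rw [D0, show D0Z 9 2 1 = 0 from by decide +kernel]; simp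
lemma d922 : D0 K 9 2 2 = 2 := by
  rw [D0, show D0Z 9 2 2 = 2 from by decide +kernel]; simp
lemma d933 : D0 K 9 3 3 = 0 := by
  rw [D0, show D0Z 9 3 3 = 0 from by decide +kernel]; simp

lemma sum10 (f : Fin 10 → K) :
    ∑ i, f i = f 0 + f 1 + f 2 + f 3 + f 4 + f 5 + f 6 + f 7 + f 8 + f 9 := by
  simp only [Fin.sum_univ_succ, Finset.univ_eq_empty, Finset.sum_empty]
  simp only [Fin.succ_zero_eq_one, Fin.succ_one_eq_two]
  ring_nf
  rfl

lemma tri_l (D : Ten K) (x : Fin 10 → K) (a b : Fin 10) :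
    tri D x (bv K a) (bv K b) = ∑ l, D l a b * x l := by
  simp only [tri, bv, Pi.single_apply]
  refine Finset.sum_congr rfl fun l _ => ?_
  rw [Finset.sum_eq_single a (fun c _ hc => by simp [hc]) (by simp)]
  rw [Finset.sum_eq_single b (fun c _ hc => by simp [hc]) (by simp)]
  simp

lemma tri_m (D : Ten K) (x : Fin 10 → K) (a b : Fin 10) :
    tri D (bv K a) x (bv K b) = ∑ l, D a l b * x l := by
  simp only [tri, bv, Pi.single_apply]
  rw [Finset.sum_eq_single a (fun c _ hc => by simp [hc]) (by simp)]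
  refine Finset.sum_congr rfl fun l _ => ?_
  rw [Finset.sum_eq_single b (fun c _ hc => by simp [hc]) (by simp)]
  simp

lemma tri_r (D : Ten K) (x : Fin 10 → K) (a b : Fin 10) :
    tri D (bv K a) (bv K b) x = ∑ l, D a b l * x l := by
  simp only [tri, bv, Pi.single_apply]
  rw [Finset.sum_eq_single a (fun c _ hc => by simp [hc]) (by simp)]
  rw [Finset.sum_eq_single b (fun c _ hc => by simp [hc]) (by simp)]
  refine Finset.sum_congr rfl fun l _ => ?_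
  simp

section tvals

variable (τ : Idx → K) (i : Fin 3)

lemma tv0 : tv τ i 0 = 0 := by simp [tv]
lemma tv1 : tv τ i 1 = 0 := by simp [tv]
lemma tv2 : tv τ i 2 = 0 := by simp [tv]
lemma tv3 : tv τ i 3 = τ (i, 0) := rfl
lemma tv4 : tv τ i 4 = τ (i, 1) := rfl
lemma tv5 : tv τ i 5 = τ (i, 2) := rfl
lemma tv6 : tv τ i 6 = τ (i, 3) := rfl
lemma tv7 : tv τ i 7 = τ (i, 4) := rfl
lemma tv8 : tv τ i 8 = τ (i, 5) := rfl
lemma tv9 : tv τ i 9 = τ (i, 6) := rfl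

end tvals

/-- the differential as a function -/
def bf (t : Idx → K) : Idx → K := fun p =>
  match p.1.val, p.2.val with
  | 0, 0 => t (1, 1)
  | 0, 1 => t (1, 2)
  | 0, 2 => t (1, 3)
  | 0, 3 => t (1, 4)
  | 0, 4 => t (1, 5)
  | 0, 5 => t (1, 6)
  | 0, _ => -2 * t (0, 0) - 3 * t (0, 2) + t (0, 4) + t (0, 5) - t (0, 6) + 2 * t (1, 0) -
      t (1, 2) + 4 * t (1, 3) + 4 * t (1, 4) + 7 * t (1, 5) - 3 * t (1, 6) + 2 * t (2, 0) +
      3 * t (2, 2) - t (2, 4) - t (2, 5) + t (2, 6)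
  | 1, 0 => t (2, 1)
  | 1, 1 => t (2, 2)
  | 1, 2 => t (2, 3)
  | 1, 3 => t (2, 4)
  | 1, 4 => t (2, 5)
  | 1, 5 => t (2, 6)
  | 1, _ => -2 * t (0, 0) - 2 * t (0, 2) - t (0, 3) - t (0, 5) - t (1, 2) + t (1, 3) +
      2 * t (1, 5) - t (1, 6) + 2 * t (2, 0) + 3 * t (2, 2) + t (2, 4) - t (2, 5) + t (2, 6)
  | _, 0 => 4 * t (0, 0) + 4 * t (0, 2) + 2 * t (0, 3) + t (0, 4) + 2 * t (0, 5) + t (1, 2) -
      t (1, 3) - 2 * t (1, 5) + t (1, 6) - 2 * t (2, 0) - 3 * t (2, 2) + t (2, 5) - t (2, 6)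
  | _, 1 => t (0, 2) - t (0, 3) - t (0, 4) - 2 * t (0, 5) + t (0, 6) - 2 * t (1, 0) -
      2 * t (1, 2) - t (1, 3) - t (1, 4) - t (1, 5)
  | _, 2 => -t (1, 4) + t (2, 2) - t (2, 3) - t (2, 4) - 2 * t (2, 5) + t (2, 6)
  | _, 3 => 2 * t (0, 0) + 2 * t (0, 2) + t (0, 3) + t (0, 5) + t (1, 2) - t (1, 3) -
      2 * t (1, 5) + t (1, 6) - 2 * t (2, 0) - 3 * t (2, 2) + t (2, 5) - t (2, 6)
  | _, 4 => t (0, 2) - t (0, 3) - t (0, 4) - 2 * t (0, 5) + t (0, 6) - 2 * t (1, 0) - t (1, 2) -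
      2 * t (1, 3) - 2 * t (1, 4) - 3 * t (1, 5) + t (1, 6)
  | _, 5 => -t (1, 4) + t (2, 2) - t (2, 3) - 2 * t (2, 4) - 2 * t (2, 5) + t (2, 6)
  | _, _ => 2 * t (0, 0) + 2 * t (0, 2) + t (0, 3) + t (0, 5) + t (1, 2) - t (1, 3) -
      2 * t (1, 5) + t (1, 6) - 2 * t (2, 0) - 3 * t (2, 2) + t (2, 5) - t (2, 6)

lemma key (τ : Idx → K) (a : Idx) :
    ∑ q, (((Pi.single q 1 : Idx → ℤ) a : ℤ) : K) * τ q = τ a := by
  rw [Finset.sum_eq_single a]
  · simp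
  · intro b _ hb
    rw [Pi.single_eq_of_ne (fun h => hb h.symm)]
    simp
  · simp

lemma sum_Bz (τ : Idx → K) (p : Idx) : ∑ q, (Bz p q : K) * τ q = bf τ p := by
  obtain ⟨i, k⟩ := p
  fin_cases i <;> fin_cases k <;>
  · simp only [Bz, bzRow, bf, Fin.zero_eta, Fin.mk_one, Fin.reduceFinMk, Fin.isValue,
      Int.cast_add, Int.cast_sub, Int.cast_neg, Int.cast_mul, Int.cast_ofNat]
    simp only [add_mul, sub_mul, neg_mul, mul_assoc, Finset.sum_add_distrib,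
      Finset.sum_sub_distrib, Finset.sum_neg_distrib, ← Finset.mul_sum, key]

/-- the vector `m` -/
def mvec (τ : Idx → K) : Fin 10 → K :=
  ![0, 0, 0, 0, bf τ (2, 0), bf τ (2, 1), bf τ (2, 2), bf τ (2, 3), bf τ (2, 4), bf τ (2, 5)]

section mvals

variable (τ : Idx → K)

lemma mv0 : mvec τ 0 = 0 := rfl
lemma mv1 : mvec τ 1 = 0 := rfl
lemma mv2 : mvec τ 2 = 0 := rfl
lemma mv3 : mvec τ 3 = 0 := rfl
lemma mv4 : mvec τ 4 = 4 * τ (0, 0) + 4 * τ (0, 2) + 2 * τ (0, 3) + τ (0, 4) + 2 * τ (0, 5) +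
    τ (1, 2) - τ (1, 3) - 2 * τ (1, 5) + τ (1, 6) - 2 * τ (2, 0) - 3 * τ (2, 2) + τ (2, 5) -
    τ (2, 6) := rfl
lemma mv5 : mvec τ 5 = τ (0, 2) - τ (0, 3) - τ (0, 4) - 2 * τ (0, 5) + τ (0, 6) -
    2 * τ (1, 0) - 2 * τ (1, 2) - τ (1, 3) - τ (1, 4) - τ (1, 5) := rfl
lemma mv6 : mvec τ 6 = -τ (1, 4) + τ (2, 2) - τ (2, 3) - τ (2, 4) - 2 * τ (2, 5) +
    τ (2, 6) := rfl
lemma mv7 : mvec τ 7 = 2 * τ (0, 0) + 2 * τ (0, 2) + τ (0, 3) + τ (0, 5) + τ (1, 2) -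
    τ (1, 3) - 2 * τ (1, 5) + τ (1, 6) - 2 * τ (2, 0) - 3 * τ (2, 2) + τ (2, 5) -
    τ (2, 6) := rfl
lemma mv8 : mvec τ 8 = τ (0, 2) - τ (0, 3) - τ (0, 4) - 2 * τ (0, 5) + τ (0, 6) -
    2 * τ (1, 0) - τ (1, 2) - 2 * τ (1, 3) - 2 * τ (1, 4) - 3 * τ (1, 5) + τ (1, 6) := rfl
lemma mv9 : mvec τ 9 = -τ (1, 4) + τ (2, 2) - τ (2, 3) - 2 * τ (2, 4) - 2 * τ (2, 5) +
    τ (2, 6) := rfl

lemma b06 : bf τ (0, 6) = -2 * τ (0, 0) - 3 * τ (0, 2) + τ (0, 4) + τ (0, 5) - τ (0, 6) +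
    2 * τ (1, 0) - τ (1, 2) + 4 * τ (1, 3) + 4 * τ (1, 4) + 7 * τ (1, 5) - 3 * τ (1, 6) +
    2 * τ (2, 0) + 3 * τ (2, 2) - τ (2, 4) - τ (2, 5) + τ (2, 6) := rfl
lemma b16 : bf τ (1, 6) = -2 * τ (0, 0) - 2 * τ (0, 2) - τ (0, 3) - τ (0, 5) - τ (1, 2) +
    τ (1, 3) + 2 * τ (1, 5) - τ (1, 6) + 2 * τ (2, 0) + 3 * τ (2, 2) + τ (2, 4) - τ (2, 5) +
    τ (2, 6) := rfl
lemma b26 : bf τ (2, 6) = 2 * τ (0, 0) + 2 * τ (0, 2) + τ (0, 3) + τ (0, 5) + τ (1, 2) -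
    τ (1, 3) - 2 * τ (1, 5) + τ (1, 6) - 2 * τ (2, 0) - 3 * τ (2, 2) + τ (2, 5) -
    τ (2, 6) := rfl

/-- the values of the new vectors -/
lemma cmb (x : Fin 10 → K) (c : K) (j : Fin 10) (hj : j ≠ 0) : (x - c • bv K 0) j = x j := by
  simp [bv, hj]

lemma cmb0 (x : Fin 10 → K) (c : K) : (x - c • bv K 0) 0 = x 0 - c := by
  simp [bv]

end mvals

lemma c30 : c3 0 = 0 := rfl
lemma c31 : c3 1 = 1 := rfl
lemma c32 : c3 2 = 2 := rfl

lemma isStep_bf (τ : Idx → K) : IsStep (D0 K) τ (bf τ) := by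
  refine ⟨mvec τ, ![-bf τ (0, 6), -bf τ (1, 6), -bf τ (2, 6)], rfl, rfl, rfl, rfl,
    ?_, ?_, ?_, ?_, ?_⟩
  · intro i j
    rw [tri_l, tri_m, tri_r]
    simp only [sum10, mv0, mv1, mv2, mv3, mv4, mv5, mv6, mv7, mv8, mv9, tv0, tv1, tv2, tv3, tv4,
      tv5, tv6, tv7, tv8, tv9]
    fin_cases i <;> fin_cases j <;>
    simp only [Fin.zero_eta, Fin.mk_one, Fin.reduceFinMk, c30, c31, c32,
      d033, d133, d134, d135, d136, d137, d138, d139, d233, d234, d235, d236, d237, d238, d239,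
      d303, d304, d305, d306, d307, d308, d309, d313, d314, d315, d316, d317, d318, d319, d323,
      d324, d325, d326, d327, d328, d329, d330, d331, d332, d333, d334, d335, d336, d337, d338,
      d339, d340, d341, d342, d350, d351, d352, d360, d361, d362, d370, d371, d372, d380, d381,
      d382, d390, d391, d392, d400, d401, d402, d410, d411, d412, d420, d421, d422, d433, d500,
      d501, d502, d510, d511, d512, d520, d521, d522, d533, d600, d601, d602, d610, d611, d612,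
      d620, d621, d622, d633, d700, d701, d702, d710, d711, d712, d720, d721, d722, d733, d800,
      d801, d802, d810, d811, d812, d820, d821, d822, d833, d900, d901, d902, d910, d911, d912,
      d920, d921, d922, d933, mul_zero, zero_mul, add_zero, zero_add]
    all_goals ring
  · rw [tri_l, tri_r, d033]
    simp only [sum10, mv0, mv1, mv2, mv3, mv4, mv5, mv6, mv7, mv8, mv9, tv0, tv1, tv2, tv3, tv4,
      tv5, tv6, tv7, tv8, tv9, d333, d433, d533, d633, d733, d833, d933, d133, d134, d135, d136,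
      d137, d138, d139]
    simp only [Matrix.cons_val_zero, b06]
    ring
  · rw [tri_l, tri_r, d033]
    simp only [sum10, mv0, mv1, mv2, mv3, mv4, mv5, mv6, mv7, mv8, mv9, tv0, tv1, tv2, tv3, tv4,
      tv5, tv6, tv7, tv8, tv9, d333, d433, d533, d633, d733, d833, d933, d233, d234, d235, d236,
      d237, d238, d239]
    simp only [Matrix.cons_val_one, Matrix.cons_val_zero, b16]
    ring
  · rw [tri_r, d033]
    simp only [sum10, mv0, mv1, mv2, mv3, mv4, mv5, mv6, mv7, mv8, mv9, d333, d334, d335, d336,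
      d337, d338, d339]
    change -bf τ (2, 6) * 2 = _
    rw [b26]
    ring
  · intro k
    fin_cases k
    · exact ⟨Eq.trans (b := tv τ 1 4) rfl (cmb (tv τ 1) _ 4 (by decide)).symm,
        Eq.trans (b := tv τ 2 4) rfl (cmb (tv τ 2) _ 4 (by decide)).symm,
        Eq.trans (b := mvec τ 4) rfl (cmb (mvec τ) _ 4 (by decide)).symm⟩
    · exact ⟨Eq.trans (b := tv τ 1 5) rfl (cmb (tv τ 1) _ 5 (by decide)).symm,
        Eq.trans (b := tv τ 2 5) rfl (cmb (tv τ 2) _ 5 (by decide)).symm,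
        Eq.trans (b := mvec τ 5) rfl (cmb (mvec τ) _ 5 (by decide)).symm⟩
    · exact ⟨Eq.trans (b := tv τ 1 6) rfl (cmb (tv τ 1) _ 6 (by decide)).symm,
        Eq.trans (b := tv τ 2 6) rfl (cmb (tv τ 2) _ 6 (by decide)).symm,
        Eq.trans (b := mvec τ 6) rfl (cmb (mvec τ) _ 6 (by decide)).symm⟩
    · exact ⟨Eq.trans (b := tv τ 1 7) rfl (cmb (tv τ 1) _ 7 (by decide)).symm,
        Eq.trans (b := tv τ 2 7) rfl (cmb (tv τ 2) _ 7 (by decide)).symm,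
        Eq.trans (b := mvec τ 7) rfl (cmb (mvec τ) _ 7 (by decide)).symm⟩
    · exact ⟨Eq.trans (b := tv τ 1 8) rfl (cmb (tv τ 1) _ 8 (by decide)).symm,
        Eq.trans (b := tv τ 2 8) rfl (cmb (tv τ 2) _ 8 (by decide)).symm,
        Eq.trans (b := mvec τ 8) rfl (cmb (mvec τ) _ 8 (by decide)).symm⟩
    · exact ⟨Eq.trans (b := tv τ 1 9) rfl (cmb (tv τ 1) _ 9 (by decide)).symm,
        Eq.trans (b := tv τ 2 9) rfl (cmb (tv τ 2) _ 9 (by decide)).symm,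
        Eq.trans (b := mvec τ 9) rfl (cmb (mvec τ) _ 9 (by decide)).symm⟩
    · refine ⟨?_, ?_, ?_⟩
      · refine Eq.trans ?_ (cmb0 _ _).symm
        rw [tv0, zero_sub]
        exact (neg_neg _).symm
      · refine Eq.trans ?_ (cmb0 _ _).symm
        rw [tv0, zero_sub]
        exact (neg_neg _).symm
      · refine Eq.trans ?_ (cmb0 _ _).symm
        rw [mv0, zero_sub]
        exact (neg_neg _).symm

end

theorem isStep_D0 (K : Type*) [Field K] [CharZero K] (τ : Idx → K) :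
    IsStep (D0 K) τ (fun p => ∑ q, (Bz p q : K) * τ q) := by
  have h : (fun p => ∑ q, (Bz p q : K) * τ q) = bf τ := funext (sum_Bz τ)
  rw [h]
  exact isStep_bf τ

end Pool.Agent.Helper96.CQ
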